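import Pool.Agent.W8.LS.Stm

/-!
Project LS (helper8): part GabInj (helper538).
-/

set_option autoImplicit false

namespace Pool.Agent.W538.LS

open Pool.Agent.W8.LS
open scoped Topology ContDiff

theorem rad_mono {α : ℝ → ℝ} (h : ContDiff ℝ ∞ α)
    (h' : ∀ s, 0 ≤ s → 0 < deriv (fun s => s * α s ^ 2) s) :
    StrictMonoOn (fun s => s * α s ^ 2) (Set.Ici 0) := by
  refine strictMonoOn_of_deriv_pos (convex_Ici 0) ?_ ?_
  · have := h.continuous
    fun_prop
  · intro x hx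
    rw [interior_Ici] at hx
    exact h' x (le_of_lt hx)

/-- the comparison of two radii -/
theorem rad_not_lt {α β : ℝ → ℝ} (h : RadProp α β) {a b a' b' s s' : ℝ}
    (hs : s = a ^ 2 + b ^ 2) (hs' : s' = a' ^ 2 + b' ^ 2) (h1 : α s * a = α s' * a')
    (h2 : β s * b = β s' * b') : ¬ s < s' := by
  obtain ⟨hα, hβ, hα0, hβ0, hdα, hdβ, -, -⟩ := h
  intro hlt
  have hs0 : 0 ≤ s := by rw [hs]; positivity
  have hs0' : 0 < s' := lt_of_le_of_lt hs0 hlt
  have pα := hα0 s hs0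
  have pβ := hβ0 s hs0
  have pα' := hα0 s' hs0'.le
  have pβ' := hβ0 s' hs0'.le
  have hf : s * α s ^ 2 < s' * α s' ^ 2 := rad_mono hα hdα hs0 hs0'.le hlt
  have hg : s * β s ^ 2 < s' * β s' ^ 2 := rad_mono hβ hdβ hs0 hs0'.le hlt
  rcases eq_or_lt_of_le hs0 with h0 | h0
  · have ha : a = 0 := by nlinarith [sq_nonneg a, sq_nonneg b]
    have hb : b = 0 := by nlinarith [sq_nonneg a, sq_nonneg b]
    rw [ha, mul_zero] at h1
    rw [hb, mul_zero] at h2
    have ha' : a' = 0 := by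
      rcases mul_eq_zero.1 h1.symm with h | h
      · exact absurd h pα'.ne'
      · exact h
    have hb' : b' = 0 := by
      rcases mul_eq_zero.1 h2.symm with h | h
      · exact absurd h pβ'.ne'
      · exact h
    rw [ha', hb'] at hs'
    norm_num at hs'
    linarith
  · have fs : 0 < s * α s ^ 2 := by positivity
    have gs : 0 < s * β s ^ 2 := by positivity
    have e1 : (α s * a) ^ 2 / (s * α s ^ 2) + (β s * b) ^ 2 / (s * β s ^ 2) = 1 := by
      have : (α s * a) ^ 2 / (s * α s ^ 2) + (β s * b) ^ 2 / (s * β s ^ 2) =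
          (a ^ 2 + b ^ 2) / s := by
        field_simp
      rw [this, ← hs, div_self h0.ne']
    have e2 : (α s' * a') ^ 2 / (s' * α s' ^ 2) + (β s' * b') ^ 2 / (s' * β s' ^ 2) = 1 := by
      have : (α s' * a') ^ 2 / (s' * α s' ^ 2) + (β s' * b') ^ 2 / (s' * β s' ^ 2) =
          (a' ^ 2 + b' ^ 2) / s' := by
        field_simp
      rw [this, ← hs', div_self hs0'.ne']
    rw [← h1, ← h2] at e2
    have l1 : (α s * a) ^ 2 / (s' * α s' ^ 2) ≤ (α s * a) ^ 2 / (s * α s ^ 2) :=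
      div_le_div_of_nonneg_left (sq_nonneg _) fs hf.le
    have l2 : (β s * b) ^ 2 / (s' * β s' ^ 2) ≤ (β s * b) ^ 2 / (s * β s ^ 2) :=
      div_le_div_of_nonneg_left (sq_nonneg _) gs hg.le
    by_cases ha : a = 0
    · have hb : b ≠ 0 := by
        intro hb
        rw [ha, hb] at hs
        norm_num at hs
        linarith
      have hpos : 0 < (β s * b) ^ 2 := by
        have : β s * b ≠ 0 := mul_ne_zero pβ.ne' hb
        positivity
      have l3 : (β s * b) ^ 2 / (s' * β s' ^ 2) < (β s * b) ^ 2 / (s * β s ^ 2) :=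
        div_lt_div_of_pos_left hpos gs hg
      linarith
    · have hpos : 0 < (α s * a) ^ 2 := by
        have : α s * a ≠ 0 := mul_ne_zero pα.ne' ha
        positivity
      have l3 : (α s * a) ^ 2 / (s' * α s' ^ 2) < (α s * a) ^ 2 / (s * α s ^ 2) :=
        div_lt_div_of_pos_left hpos fs hf
      linarith

theorem GabInj_proof : GabInj := by
  intro α β h ζ ζ' hG
  have hn : ∀ z : ℂ, ‖z‖ ^ 2 = z.re ^ 2 + z.im ^ 2 := fun z => by
    rw [Complex.sq_norm, Complex.normSq_apply]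
    ring
  have hre : α (‖ζ‖ ^ 2) * ζ.re = α (‖ζ'‖ ^ 2) * ζ'.re := by
    have := congrArg Complex.re hG
    simpa [Gab] using this
  have him : β (‖ζ‖ ^ 2) * ζ.im = β (‖ζ'‖ ^ 2) * ζ'.im := by
    have := congrArg Complex.im hG
    simpa [Gab] using this
  have hs : ‖ζ‖ ^ 2 = ‖ζ'‖ ^ 2 := by
    refine le_antisymm ?_ ?_
    · exact not_lt.1 (rad_not_lt h (hn ζ') (hn ζ) hre.symm him.symm)
    · exact not_lt.1 (rad_not_lt h (hn ζ) (hn ζ') hre him)
  obtain ⟨-, -, hα0, hβ0, -⟩ := h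
  rw [hs] at hre him
  have p1 := hα0 (‖ζ'‖ ^ 2) (by positivity)
  have p2 := hβ0 (‖ζ'‖ ^ 2) (by positivity)
  exact Complex.ext (mul_left_cancel₀ p1.ne' hre) (mul_left_cancel₀ p2.ne' him)

end Pool.Agent.W538.LS
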