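import Pool.Agent.W8.LS.Stm

/-!
Project LS (helper8): part CompactM (helper538).
-/

set_option autoImplicit false

namespace Pool.Agent.W538.LS

open Pool.Agent.W8.LS
open scoped Topology

/-- product of closed balls -/
def KA (N : ℕ) : Set V :=
  Metric.closedBall (0 : ℝ) N ×ˢ (Metric.closedBall (0 : ℝ) N ×ˢ
    (Metric.closedBall (0 : ℂ) (1 / 500) ×ˢ Metric.closedBall (0 : ℂ) 1))

/-- product of closed balls -/
def KB (N : ℕ) : Set V :=
  Metric.closedBall (0 : ℝ) N ×ˢ (Metric.closedBall (0 : ℝ) N ×ˢ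
    (Metric.closedBall (0 : ℂ) 1 ×ˢ Metric.closedBall (0 : ℂ) (1 / 500)))

theorem KA_compact (N : ℕ) : IsCompact (KA N) :=
  (isCompact_closedBall _ _).prod ((isCompact_closedBall _ _).prod
    ((isCompact_closedBall _ _).prod (isCompact_closedBall _ _)))

theorem KB_compact (N : ℕ) : IsCompact (KB N) :=
  (isCompact_closedBall _ _).prod ((isCompact_closedBall _ _).prod
    ((isCompact_closedBall _ _).prod (isCompact_closedBall _ _)))

theorem small {a b : ℝ} (ha0 : 0 ≤ a) (ha : a ≤ 1 / 500) (hb0 : 0 ≤ b) (hb : b ≤ 1) :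
    a * (1 + b ^ 2) < 1 / 200 := by
  have h1 : b ^ 2 ≤ 1 := by nlinarith
  have h2 : a * (1 + b ^ 2) ≤ 1 / 500 * (1 + b ^ 2) :=
    mul_le_mul_of_nonneg_right ha (by positivity)
  linarith

theorem CompactM_proof : CompactM := by
  intro hCh hCC hF hL
  obtain ⟨hR, hA, hB⟩ := hCh hF hL
  obtain ⟨K, hK, hKs, N, hcov⟩ := hCC hF
  let S : Set (ℤ × ℤ × ℤ × ℤ) := Set.Icc (-(N : ℤ)) N ×ˢ (Set.Icc (-(N : ℤ)) N ×ˢ
    (Set.Icc (-(N : ℤ)) N ×ˢ Set.Icc (-(N : ℤ)) N))
  have hS : S.Finite := (Set.finite_Icc _ _).prod ((Set.finite_Icc _ _).prod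
    ((Set.finite_Icc _ _).prod (Set.finite_Icc _ _)))
  have h1 : IsCompact (chR '' K) :=
    hK.image_of_continuousOn (hR.mono fun P hP => hKs P hP)
  have h2 : ∀ k l m r : ℤ, IsCompact (chA k l m r '' KA N) := fun k l m r =>
    (KA_compact N).image_of_continuousOn ((hA k l m r).mono fun Q hQ => by
      obtain ⟨_, _, h3, h4⟩ := hQ
      rw [mem_closedBall_zero_iff] at h3 h4
      exact small (norm_nonneg _) h3 (norm_nonneg _) h4)
  have h3 : ∀ k l m r : ℤ, IsCompact (chB k l m r '' KB N) := fun k l m r =>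
    (KB_compact N).image_of_continuousOn ((hB k l m r).mono fun Q hQ => by
      obtain ⟨_, _, h3, h4⟩ := hQ
      rw [mem_closedBall_zero_iff] at h3 h4
      exact small (norm_nonneg _) h4 (norm_nonneg _) h3)
  have h4 : IsCompact (chR '' K ∪ ⋃ p ∈ S, (chA p.1 p.2.1 p.2.2.1 p.2.2.2 '' KA N ∪
      chB p.1 p.2.1 p.2.2.1 p.2.2.2 '' KB N)) :=
    h1.union (hS.isCompact_biUnion fun p _ => (h2 _ _ _ _).union (h3 _ _ _ _))
  refine isCompact_univ_iff.1 ?_
  convert h4
  symm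
  rw [Set.eq_univ_iff_forall]
  intro x
  rcases hcov x with ⟨P, hP, rfl⟩ | ⟨k, l, m, r, ⟨hk, hl, hm, hr⟩, Q, hQ1, hQ2, hQ⟩
  · exact Or.inl ⟨P, hP, rfl⟩
  · right
    have hmem : (k, l, m, r) ∈ S := by
      refine ⟨?_, ?_, ?_, ?_⟩
      · exact abs_le.1 hk
      · exact abs_le.1 hl
      · exact abs_le.1 hm
      · exact abs_le.1 hr
    refine Set.mem_biUnion hmem ?_
    rcases hQ with ⟨ha, hb, hx⟩ | ⟨ha, hb, hx⟩
    · left
      refine ⟨Q, ⟨?_, ?_, ?_, ?_⟩, hx⟩
      · rw [mem_closedBall_zero_iff]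
        exact hQ1
      · rw [mem_closedBall_zero_iff]
        exact hQ2
      · rw [mem_closedBall_zero_iff]
        exact hb
      · rw [mem_closedBall_zero_iff]
        exact ha
    · right
      refine ⟨Q, ⟨?_, ?_, ?_, ?_⟩, hx⟩
      · rw [mem_closedBall_zero_iff]
        exact hQ1
      · rw [mem_closedBall_zero_iff]
        exact hQ2
      · rw [mem_closedBall_zero_iff]
        exact ha
      · rw [mem_closedBall_zero_iff]
        exact hb

end Pool.Agent.W538.LS
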